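import Pool.Agent.X14.PolySum
import Pool.Agent.X14.Bala

set_option autoImplicit false

namespace Pool.Agent.Results.MP_9b2749_nt.PowerSums

open Finset Pool.Agent.H434R2 Pool.Agent.H434R2.PO Pool.Agent.X14 Polynomial

/-- the binomial coefficient `x (x-1) ⋯ (x-k+1) / k!` -/
def binom (x : ℚ) (k : ℕ) : ℚ := (∏ j ∈ range k, (x - j)) / (k.factorial : ℚ)

/-- `S_{m,r}(p) = ∑_{k=0}^{p-1} (-1)^{km} C(r/m, k)^m` -/
def S (m : ℕ) (r : ℤ) (p : ℕ) : ℚ :=
  ∑ k ∈ range p, (-1 : ℚ) ^ (k * m) * binom ((r : ℚ) / (m : ℚ)) k ^ m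

/-- `A(X) = (X+1) ⋯ (X+t)` -/
noncomputable def A (t : ℕ) : ℤ[X] := ∏ i ∈ range t, (X + C ((i : ℤ) + 1))

/-- the same product without the factor of index `i` -/
noncomputable def B (t i : ℕ) : ℤ[X] := ∏ j ∈ (range t).erase i, (X + C ((j : ℤ) + 1))

lemma A_eval (t : ℕ) (x : ℤ) : (A t).eval x = ∏ i ∈ range t, (x + (i + 1)) := by
  unfold A; rw [eval_prod]; simp

lemma B_eval (t i : ℕ) (x : ℤ) : (B t i).eval x = ∏ j ∈ (range t).erase i, (x + (j + 1)) := by
  unfold B; rw [eval_prod]; simp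

lemma A_deg (t : ℕ) : (A t).natDegree ≤ t := by
  unfold A
  refine (natDegree_prod_le _ _).trans ?_
  refine (sum_le_sum (fun i _ => (natDegree_X_add_C _).le)).trans ?_
  simp

lemma B_deg (t i : ℕ) : (B t i).natDegree ≤ t := by
  unfold B
  refine (natDegree_prod_le _ _).trans ?_
  refine (sum_le_sum (fun i _ => (natDegree_X_add_C _).le)).trans ?_
  simp only [sum_const, smul_eq_mul, mul_one]
  exact (card_le_card (erase_subset _ _)).trans (by simp)

lemma shift_prod (t : ℕ) (x : ℚ) :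
    (∏ i ∈ range t, (x + 1 + ((i : ℚ) + 1))) * (x + 1) = (∏ i ∈ range t, (x + ((i : ℚ) + 1))) * (x + t + 1) := by
  induction t with
  | zero => simp
  | succ t ih =>
    rw [prod_range_succ, prod_range_succ, mul_right_comm, ih]; push_cast; ring

/-- `c_k = C(t+k, k)` -/
def c (t k : ℕ) : ℚ := ∏ j ∈ range k, ((t : ℚ) + 1 + j) / ((j : ℚ) + 1)

lemma c_eq (t k : ℕ) : (t.factorial : ℚ) * c t k = (((A t).eval (k : ℤ) : ℤ) : ℚ) := by
  rw [A_eval]
  push_cast
  induction k with
  | zero =>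
    unfold c
    rw [range_zero, prod_empty, mul_one, ← Finset.prod_range_add_one_eq_factorial]
    push_cast
    apply prod_congr rfl
    intro i _
    ring
  | succ k ih =>
    have hk : (k : ℚ) + 1 ≠ 0 := by positivity
    have e : c t (k + 1) = c t k * (((t : ℚ) + 1 + k) / ((k : ℚ) + 1)) := by unfold c; rw [prod_range_succ]
    rw [e, ← mul_assoc, ih]
    have h := shift_prod t (k : ℚ)
    push_cast
    rw [← mul_div_assoc, div_eq_iff hk, h]
    ring

variable {p : ℕ} [hp : Fact p.Prime]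

lemma prod_second {s : Finset ℕ} {a b d : ℕ → ℚ} (h : ∀ j ∈ s, PO p 3 (a j - (b j + (p : ℚ) ^ 2 * d j)))
    (hb : ∀ j ∈ s, PO p 1 (b j - 1)) (hd : ∀ j ∈ s, PO p 0 (d j)) :
    PO p 3 (∏ j ∈ s, a j - (∏ j ∈ s, b j + (p : ℚ) ^ 2 * ∑ j ∈ s, d j)) := by
  induction s using Finset.induction_on with
  | empty => simpa using PO.zero (p := p) 3
  | insert i s hi ih =>
    have h' := ih (fun j hj => h j (mem_insert_of_mem hj)) (fun j hj => hb j (mem_insert_of_mem hj))
      (fun j hj => hd j (mem_insert_of_mem hj))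
    have hi1 := h i (mem_insert_self i s)
    have hi2 := hb i (mem_insert_self i s)
    have hi3 := hd i (mem_insert_self i s)
    have hB : PO p 1 (∏ j ∈ s, b j - 1) := prod_one _ _ (fun j hj => hb j (mem_insert_of_mem hj))
    have hD : PO p 0 (∑ j ∈ s, d j) := PO.sum _ _ (fun j hj => hd j (mem_insert_of_mem hj))
    rw [prod_insert hi, prod_insert hi, sum_insert hi]
    set P := ∏ j ∈ s, a j
    set Q := ∏ j ∈ s, b j
    set D := ∑ j ∈ s, d j
    have hb0 : PO p 0 (b i) := by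
      have := (hi2.mono (Nat.zero_le 1)).add (PO.one (p := p)); rwa [sub_add_cancel] at this
    have hQ0 : PO p 0 Q := by
      have := (hB.mono (Nat.zero_le 1)).add (PO.one (p := p)); rwa [sub_add_cancel] at this
    have ha0 : PO p 0 (a i) := by
      have h5 := (hi1.mono (Nat.zero_le 3)).add (hb0.add (((ppow (p := p) 2).mono (Nat.zero_le 2)).mul0 hi3))
      rwa [sub_add_cancel] at h5
    have e : a i * P - (b i * Q + (p : ℚ) ^ 2 * (d i + D)) =
        a i * (P - (Q + (p : ℚ) ^ 2 * D)) + (a i - (b i + (p : ℚ) ^ 2 * d i)) * (Q + (p : ℚ) ^ 2 * D) +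
        (p : ℚ) ^ 2 * ((b i - 1) * D + d i * (Q - 1)) + (p : ℚ) ^ 2 * ((p : ℚ) ^ 2 * (d i * D)) := by ring
    rw [e]
    have hQD : PO p 0 (Q + (p : ℚ) ^ 2 * D) := hQ0.add (((ppow (p := p) 2).mono (Nat.zero_le 2)).mul0 hD)
    refine (((PO.mul0 ha0 h').add (hi1.mul0' hQD)).add ?_).add ?_
    · exact (ppow (p := p) 2).mul (k := 1) ((hi2.mul0' hD).add (PO.mul0 hi3 hB))
    · exact ((ppow (p := p) 2).mul ((ppow (p := p) 2).mul0' (hi3.mul0 hD))).mono (by omega)

/-- the second order sum -/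
lemma second_sum (h2 : p ≠ 2) {m t : ℕ} (hm : 3 ≤ m) (ht : t * m + 2 ≤ p) (hpar : Even m ∨ Even t) :
    PO p 1 (∑ k ∈ range (p - 1 - t + 1), c t k ^ m * ∑ j ∈ range k, 1 / ((t : ℚ) + 1 + j) ^ 2) := by
  have htp : t + 2 ≤ p := by nlinarith
  obtain ⟨N, hN⟩ : ∃ N, p = N + 1 + t := ⟨p - 1 - t, by omega⟩
  have hN' : p - 1 - t = N := by omega
  rw [hN']
  have hNQ : (N : ℚ) = p - 1 - t := by rw [hN]; push_cast; ring
  -- inverses
  have iu : ∀ u : ℕ, u + 1 < p → PO p 0 (((u : ℚ) + 1)⁻¹) := by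
    intro u hu
    exact inv_succ (by omega)
  -- harmonic sums
  set H : ℕ → ℚ := fun k => ∑ j ∈ range k, 1 / ((t : ℚ) + 1 + j) ^ 2 with hH
  set h : ℕ → ℚ := fun n => ∑ u ∈ range n, 1 / ((u : ℚ) + 1) ^ 2 with hh
  set Av : ℕ → ℚ := fun k => (((A t).eval (k : ℤ) : ℤ) : ℚ) with hAv
  -- `H (N - k)`
  have hH1 : ∀ k ≤ N, PO p 1 (H (N - k) - (h N - h k)) := by
    intro k hk
    have e1 : h N - h k = ∑ j ∈ range (N - k), 1 / ((k : ℚ) + 1 + j) ^ 2 := by
      simp only [hh]
      obtain ⟨l, rfl⟩ : ∃ l, N = k + l := ⟨N - k, by omega⟩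
      rw [sum_range_add, Nat.add_sub_cancel_left, add_sub_cancel_left]
      apply sum_congr rfl
      intro j _
      push_cast; ring
    have e2 : H (N - k) = ∑ j ∈ range (N - k), 1 / ((p : ℚ) - ((k : ℚ) + 1 + j)) ^ 2 := by
      simp only [hH]
      rw [← Finset.sum_range_reflect]
      apply sum_congr rfl
      intro j hj
      have hj' := mem_range.1 hj
      rw [Nat.cast_sub (by omega), Nat.cast_sub (by omega), Nat.cast_sub hk, hNQ]
      push_cast; ring
    rw [e1, e2]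
    apply sum_sub
    intro j hj
    have hj' := mem_range.1 hj
    have h5 := iu (k + j) (by omega)
    push_cast at h5
    rw [show (k : ℚ) + j + 1 = k + 1 + j by ring] at h5
    exact inv_sq_sub (by positivity) h5
  have hH2 : ∀ k, H k = h (t + k) - h t := by
    intro k
    simp only [hh, hH]
    rw [sum_range_add, add_sub_cancel_left]
    apply sum_congr rfl
    intro j _
    push_cast; ring
  have hH3 : ∀ k, h (t + k) = h k + ∑ i ∈ range t, 1 / ((k : ℚ) + (i + 1)) ^ 2 := by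
    intro k
    simp only [hh]
    rw [add_comm t k, sum_range_add]
    congr 1
    apply sum_congr rfl
    intro j _
    push_cast; ring
  -- reflection of `A`
  have hA1 : ∀ k ≤ N, PO p 1 (Av (N - k) ^ m - Av k ^ m) := by
    intro k hk
    have h5 : PO p 1 ((((A t).eval ((N - k : ℕ) : ℤ) ^ m - (A t).eval (k : ℤ) ^ m : ℤ)) : ℚ) := by
      apply PO_of_dvd
      rw [pow_one, ← ZMod.intCast_zmod_eq_zero_iff_dvd, A_eval, A_eval]
      push_cast
      rw [sub_eq_zero]
      have e3 : ∏ i ∈ range t, (((N - k : ℕ) : ZMod p) + ((i : ZMod p) + 1)) = (-1) ^ t * ∏ i ∈ range t, ((k : ZMod p) + ((i : ZMod p) + 1)) := by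
        rw [← Finset.prod_range_reflect (fun i => (k : ZMod p) + ((i : ZMod p) + 1))]
        have : (-1 : ZMod p) ^ t = ∏ i ∈ range t, (-1 : ZMod p) := by simp
        rw [this, ← prod_mul_distrib]
        apply prod_congr rfl
        intro i hi
        have hi' := mem_range.1 hi
        have e4 : ((N - k : ℕ) : ZMod p) + ((i : ZMod p) + 1) + ((k : ZMod p) + (((t - 1 - i : ℕ) : ZMod p) + 1)) = 0 := by
          have e5 : ((N - k) + (i + 1) + (k + (t - 1 - i + 1)) : ℕ) = p := by omega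
          have e6 : ((((N - k) + (i + 1) + (k + (t - 1 - i + 1)) : ℕ)) : ZMod p) = 0 := by
            rw [e5]; exact ZMod.natCast_self p
          push_cast at e6
          exact e6
        linear_combination e4
      rw [e3, mul_pow, ← pow_mul]
      have e7 : (-1 : ZMod p) ^ (t * m) = 1 := by
        apply Even.neg_one_pow
        rcases hpar with h | h
        · exact Even.mul_left h _
        · exact Even.mul_right h _
      rw [e7, one_mul]
    push_cast at h5
    exact h5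
  have hAint : ∀ k, PO p 0 (Av k) := fun k => of_int _
  have hHint : ∀ k ≤ N, PO p 0 (H k) := by
    intro k hk
    simp only [hH]
    apply PO.sum
    intro j hj
    have hj' := mem_range.1 hj
    have h5 := iu (t + j) (by omega)
    push_cast at h5
    rw [show (t : ℚ) + j + 1 = t + 1 + j by ring] at h5
    rw [one_div, ← inv_pow]
    exact h5.pow0 2
  have hhint : ∀ n, n + 1 ≤ p → PO p 0 (h n) := by
    intro n hn
    simp only [hh]
    apply PO.sum
    intro j hj
    have hj' := mem_range.1 hj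
    rw [one_div, ← inv_pow]
    exact (iu j (by omega)).pow0 2
  -- polynomial sums
  have hext : ∀ Q : ℤ[X], Q.natDegree + 2 ≤ p → (∀ k, N < k → k < p → (p : ℤ) ∣ Q.eval (k : ℤ)) →
      PO p 1 (∑ k ∈ range (N + 1), ((Q.eval (k : ℤ) : ℤ) : ℚ)) := by
    intro Q hQ hd
    have h5 := sum_poly_PO (p := p) Q hQ
    have e1 : ∑ k ∈ range p, ((Q.eval (k : ℤ) : ℤ) : ℚ) = ∑ k ∈ range (N + 1), ((Q.eval (k : ℤ) : ℤ) : ℚ) +
        ∑ j ∈ range t, ((Q.eval ((N + 1 + j : ℕ) : ℤ) : ℤ) : ℚ) := by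
      have : range p = range (N + 1 + t) := by rw [← hN]
      rw [this, sum_range_add]
    have e2 : PO p 1 (∑ j ∈ range t, ((Q.eval ((N + 1 + j : ℕ) : ℤ) : ℤ) : ℚ)) := by
      apply PO.sum
      intro j hj
      have hj' := mem_range.1 hj
      apply PO_of_dvd
      rw [pow_one]
      exact hd _ (by omega) (by omega)
    have e3 : ∑ k ∈ range (N + 1), ((Q.eval (k : ℤ) : ℤ) : ℚ) = ∑ k ∈ range p, ((Q.eval (k : ℤ) : ℤ) : ℚ) -
        ∑ j ∈ range t, ((Q.eval ((N + 1 + j : ℕ) : ℤ) : ℤ) : ℚ) := by rw [e1]; ring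
    rw [e3]
    exact h5.sub e2
  have hAd : ∀ k, N < k → k < p → (p : ℤ) ∣ (A t).eval (k : ℤ) := by
    intro k hk1 hk2
    rw [A_eval]
    have : p - 1 - k ∈ range t := mem_range.2 (by omega)
    refine dvd_trans ?_ (Finset.dvd_prod_of_mem _ this)
    have e : (k : ℤ) + (((p - 1 - k : ℕ) : ℤ) + 1) = p := by omega
    rw [e]
  have hs1 : PO p 1 (∑ k ∈ range (N + 1), Av k ^ m) := by
    have h5 := hext (A t ^ m) (by
      have := natDegree_pow_le (p := A t) (n := m)
      have h6 := A_deg t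
      nlinarith) (by
      intro k h1 h3
      rw [eval_pow]
      exact dvd_pow (hAd k h1 h3) (by omega))
    have e : ∑ k ∈ range (N + 1), Av k ^ m = ∑ k ∈ range (N + 1), (((A t ^ m).eval (k : ℤ) : ℤ) : ℚ) := by
      apply sum_congr rfl
      intro k _
      rw [eval_pow]; push_cast; rfl
    rw [e]; exact h5
  have hs2 : ∀ i ∈ range t, PO p 1 (∑ k ∈ range (N + 1), Av k ^ m * (1 / ((k : ℚ) + (i + 1)) ^ 2)) := by
    intro i hi
    obtain ⟨l, rfl⟩ : ∃ l, m = l + 3 := ⟨m - 3, by omega⟩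
    have h5 := hext (B t i ^ 2 * A t ^ (l + 1)) (by
      have h6 := A_deg t
      have h7 := B_deg t i
      have h8 : (B t i ^ 2 * A t ^ (l + 1)).natDegree ≤ 2 * (B t i).natDegree + (l + 1) * (A t).natDegree :=
        natDegree_mul_le.trans (add_le_add natDegree_pow_le natDegree_pow_le)
      nlinarith) (by
      intro k h1 h3
      rw [eval_mul, eval_pow, eval_pow]
      exact dvd_mul_of_dvd_right (dvd_pow (hAd k h1 h3) (by omega)) _)
    have e : ∑ k ∈ range (N + 1), Av k ^ (l + 3) * (1 / ((k : ℚ) + (i + 1)) ^ 2) =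
        ∑ k ∈ range (N + 1), (((B t i ^ 2 * A t ^ (l + 1)).eval (k : ℤ) : ℤ) : ℚ) := by
      apply sum_congr rfl
      intro k _
      rw [eval_mul, eval_pow, eval_pow]
      have e1 : (A t).eval (k : ℤ) = ((k : ℤ) + (i + 1)) * (B t i).eval (k : ℤ) := by
        rw [A_eval, B_eval, Finset.mul_prod_erase (range t) (fun j => ((k : ℤ) + ((j : ℤ) + 1))) hi]
      have e2 : Av k = ((k : ℚ) + (i + 1)) * (((B t i).eval (k : ℤ) : ℤ) : ℚ) := by
        simp only [hAv]; rw [e1]; push_cast; ring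
      have e3 : ((k : ℚ) + (i + 1)) ≠ 0 := by positivity
      push_cast
      have e4 : Av k ^ (l + 3) = Av k ^ 2 * Av k ^ (l + 1) := by rw [← pow_add]; congr 1; omega
      have e5 : Av k ^ 2 * (1 / ((k : ℚ) + (i + 1)) ^ 2) = (((B t i).eval (k : ℤ) : ℤ) : ℚ) ^ 2 := by
        rw [e2]; field_simp
      rw [e4, mul_right_comm, e5]
    rw [e]; exact h5
  -- the symmetrised sum
  have hZ : PO p 1 (∑ k ∈ range (N + 1), Av k ^ m * H k) := by
    have e1 : ∑ k ∈ range (N + 1), Av k ^ m * H k =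
        1 / 2 * ∑ k ∈ range (N + 1), (Av (N - k) ^ m * H (N - k) + Av k ^ m * H k) := by
      have e2 := Finset.sum_range_reflect (fun k => Av k ^ m * H k) (N + 1)
      simp only [Nat.add_sub_cancel] at e2
      rw [sum_add_distrib, e2]; ring
    rw [e1]
    refine PO.mul0 (half h2) ?_
    have e3 : ∑ k ∈ range (N + 1), (Av (N - k) ^ m * H (N - k) + Av k ^ m * H k) =
        ∑ k ∈ range (N + 1), ((Av (N - k) ^ m - Av k ^ m) * H (N - k) + Av k ^ m * (H (N - k) - (h N - h k))) +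
        ((h N - h t) * ∑ k ∈ range (N + 1), Av k ^ m +
        ∑ i ∈ range t, ∑ k ∈ range (N + 1), Av k ^ m * (1 / ((k : ℚ) + (i + 1)) ^ 2)) := by
      rw [sum_comm (s := range t), mul_sum, ← sum_add_distrib, ← sum_add_distrib]
      apply sum_congr rfl
      intro k _
      rw [← mul_sum]
      have e5 : H k = h k + ∑ i ∈ range t, 1 / ((k : ℚ) + (i + 1)) ^ 2 - h t := by rw [hH2, hH3]
      rw [e5]
      ring
    rw [e3]
    refine PO.add ?_ (PO.add ?_ (PO.sum _ _ hs2))
    · apply PO.sum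
      intro k hk
      have hk' : k ≤ N := by have := mem_range.1 hk; omega
      exact ((hA1 k hk').mul0' (hHint _ (by omega))).add (PO.mul0 ((hAint k).pow0 m) (hH1 k hk'))
    · exact PO.mul0 ((hhint N (by omega)).sub (hhint t (by omega))) hs1
  -- remove the factorial
  have hf : ¬ p ∣ t.factorial := by
    intro hd
    have := (hp.out.dvd_factorial).1 hd
    omega
  have hfi : PO p 0 (((t.factorial : ℕ) : ℚ)⁻¹) := inv_nat hf
  have hf0 : ((t.factorial : ℕ) : ℚ) ≠ 0 := by positivity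
  have e : ∑ k ∈ range (N + 1), c t k ^ m * H k = (((t.factorial : ℕ) : ℚ)⁻¹) ^ m * ∑ k ∈ range (N + 1), Av k ^ m * H k := by
    rw [mul_sum]
    apply sum_congr rfl
    intro k _
    have : Av k = (t.factorial : ℚ) * c t k := (c_eq t k).symm
    rw [this, mul_pow, inv_pow]
    field_simp
  rw [e]
  exact PO.mul0 (hfi.pow0 m) hZ

/-- the congruence in terms of `t = (p - r)/m - 1` -/
theorem main (h2 : p ≠ 2) {m t : ℕ} (hm : 3 ≤ m) (hpm : ¬ p ∣ m) (ht : t * m + 2 ≤ p) (hpar : Even m ∨ Even t) :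
    PO p 3 (∑ k ∈ range p, (∏ j ∈ range k, ((t : ℚ) + 1 + j - (p : ℚ) / m) / ((j : ℚ) + 1)) ^ m) := by
  have htp : t + 2 ≤ p := by nlinarith
  obtain ⟨N, hN⟩ : ∃ N, p = N + 1 + t := ⟨p - 1 - t, by omega⟩
  have hN' : p - 1 - t = N := by omega
  have hNQ : (N : ℚ) = p - 1 - t := by rw [hN]; push_cast; ring
  have hm0 : (m : ℚ) ≠ 0 := by positivity
  have him : PO p 0 ((m : ℚ)⁻¹) := inv_nat hpm
  have hxm : PO p 1 ((p : ℚ) / m) := by rw [div_eq_mul_inv]; exact p_PO.mul0' him
  have iu : ∀ u : ℕ, u + 1 < p → PO p 0 (((u : ℚ) + 1)⁻¹) := by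
    intro u hu
    exact inv_succ (by omega)
  have e0 : range p = range (N + 1 + t) := by rw [← hN]
  have hfac : ∀ j : ℕ, j + 1 < p → PO p 0 (((t : ℚ) + 1 + j - (p : ℚ) / m) / ((j : ℚ) + 1)) := by
    intro j hj
    rw [div_eq_mul_inv]
    refine PO.mul0 ?_ (iu j hj)
    refine PO.sub ?_ (hxm.mono (by omega))
    have := of_nat (p := p) (t + 1 + j)
    push_cast at this
    exact this
  rw [e0, sum_range_add]
  refine PO.add ?_ ?_
  · -- the main part
    set y : ℕ → ℚ := fun j => ((t : ℚ) + 1 + j)⁻¹ with hy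
    have hy0 : ∀ j, t + 1 + j < p → PO p 0 (y j) := by
      intro j hj
      have := iu (t + j) (by omega)
      push_cast at this
      simp only [hy]
      rwa [show (t : ℚ) + j + 1 = t + 1 + j by ring] at this
    have hterm : ∀ k ∈ range (N + 1), PO p 3 ((∏ j ∈ range k, ((t : ℚ) + 1 + j - (p : ℚ) / m) / ((j : ℚ) + 1)) ^ m -
        (c t k ^ m * ∏ j ∈ range k, (1 - (p : ℚ) * y j) +
          (p : ℚ) ^ 2 * (((m.choose 2 : ℚ) * (m : ℚ)⁻¹ ^ 2) * (c t k ^ m * ∑ j ∈ range k, 1 / ((t : ℚ) + 1 + j) ^ 2)))) := by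
      intro k hk
      have hk' : k ≤ N := by have := mem_range.1 hk; omega
      have hc0 : PO p 0 (c t k) := by
        unfold c
        apply prod_int
        intro j hj
        have hj' := mem_range.1 hj
        rw [div_eq_mul_inv]
        refine PO.mul0 ?_ (iu j (by omega))
        have := of_nat (p := p) (t + 1 + j)
        push_cast at this
        exact this
      have e1 : (∏ j ∈ range k, ((t : ℚ) + 1 + j - (p : ℚ) / m) / ((j : ℚ) + 1)) ^ m =
          c t k ^ m * ∏ j ∈ range k, (1 - (p : ℚ) / m * y j) ^ m := by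
        unfold c
        rw [prod_pow, ← mul_pow, ← prod_mul_distrib]
        congr 1
        apply prod_congr rfl
        intro j _
        simp only [hy]
        have : (t : ℚ) + 1 + j ≠ 0 := by positivity
        have : (j : ℚ) + 1 ≠ 0 := by positivity
        field_simp
      have h5 := prod_second (p := p) (s := range k) (a := fun j => (1 - (p : ℚ) / m * y j) ^ m)
        (b := fun j => 1 - (p : ℚ) * y j) (d := fun j => ((m.choose 2 : ℚ) * (m : ℚ)⁻¹ ^ 2) * (y j) ^ 2)
        (by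
          intro j hj
          have hj' := mem_range.1 hj
          have hyj := hy0 j (by omega)
          have h6 := one_sub_pow_expand (p := p) (k := 1) (x := (p : ℚ) / m * y j) (hxm.mul0' hyj) m
          have e2 : (1 - (p : ℚ) / m * y j) ^ m - (1 - (p : ℚ) * y j + (p : ℚ) ^ 2 * (((m.choose 2 : ℚ) * (m : ℚ)⁻¹ ^ 2) * (y j) ^ 2)) =
              (1 - (p : ℚ) / m * y j) ^ m - (1 - m * ((p : ℚ) / m * y j) + (m.choose 2 : ℚ) * ((p : ℚ) / m * y j) ^ 2) := by
            field_simp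
          rw [e2]
          exact h6)
        (by
          intro j hj
          have hj' := mem_range.1 hj
          have hyj := hy0 j (by omega)
          have e2 : 1 - (p : ℚ) * y j - 1 = -((p : ℚ) * y j) := by ring
          rw [e2]
          exact (p_PO.mul0' hyj).neg)
        (by
          intro j hj
          have hj' := mem_range.1 hj
          have hyj := hy0 j (by omega)
          exact PO.mul0 (PO.mul0 (of_nat _) (him.pow0 2)) (hyj.pow0 2))
      rw [e1]
      have e3 : c t k ^ m * ∏ j ∈ range k, (1 - (p : ℚ) / m * y j) ^ m -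
          (c t k ^ m * ∏ j ∈ range k, (1 - (p : ℚ) * y j) +
          (p : ℚ) ^ 2 * (((m.choose 2 : ℚ) * (m : ℚ)⁻¹ ^ 2) * (c t k ^ m * ∑ j ∈ range k, 1 / ((t : ℚ) + 1 + j) ^ 2))) =
          c t k ^ m * (∏ j ∈ range k, (1 - (p : ℚ) / m * y j) ^ m - (∏ j ∈ range k, (1 - (p : ℚ) * y j) +
            (p : ℚ) ^ 2 * ∑ j ∈ range k, ((m.choose 2 : ℚ) * (m : ℚ)⁻¹ ^ 2) * (y j) ^ 2)) := by
        have e4 : ∑ j ∈ range k, ((m.choose 2 : ℚ) * (m : ℚ)⁻¹ ^ 2) * (y j) ^ 2 =
            ((m.choose 2 : ℚ) * (m : ℚ)⁻¹ ^ 2) * ∑ j ∈ range k, 1 / ((t : ℚ) + 1 + j) ^ 2 := by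
          rw [mul_sum]
          apply sum_congr rfl
          intro j _
          simp only [hy]
          rw [inv_pow (((t : ℚ) + 1 + j)), one_div]
        rw [e4]; ring
      rw [e3]
      exact PO.mul0 (hc0.pow0 m) h5
    have hzero : ∑ k ∈ range (N + 1), c t k ^ m * ∏ j ∈ range k, (1 - (p : ℚ) * y j) = 0 := by
      obtain ⟨l, rfl⟩ : ∃ l, m = l + 1 := ⟨m - 1, by omega⟩
      have hdeg : ((A t) ^ l).natDegree < N := by
        have := natDegree_pow_le (p := A t) (n := l)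
        have h6 := A_deg t
        nlinarith
      have h5 := alt_sum_poly ((A t) ^ l) hdeg
      have hf0 : ((t.factorial : ℕ) : ℚ) ≠ 0 := by positivity
      have e1 : (((t.factorial : ℕ) : ℚ)) ^ l * ∑ k ∈ range (N + 1), c t k ^ (l + 1) * ∏ j ∈ range k, (1 - (p : ℚ) * y j) =
          ((∑ k ∈ range (N + 1), (-1 : ℤ) ^ k * (N.choose k : ℤ) * ((A t) ^ l).eval (k : ℤ) : ℤ) : ℚ) := by
        rw [mul_sum]
        push_cast
        apply sum_congr rfl
        intro k hk
        have h6 := Bala.choose_pred (N + 1) k (by omega)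
        rw [Nat.add_sub_cancel] at h6
        have h7 : c t k * ∏ j ∈ range k, (1 - (p : ℚ) * y j) = ∏ i ∈ range k, (1 - Bala.xx (N + 1) i) := by
          unfold c Bala.xx
          rw [← prod_mul_distrib]
          apply prod_congr rfl
          intro j _
          simp only [hy]
          have h8 : (t : ℚ) + 1 + j ≠ 0 := by positivity
          have h9 : (j : ℚ) + 1 ≠ 0 := by positivity
          push_cast
          rw [hNQ]
          field_simp
          ring
        rw [eval_pow]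
        push_cast
        rw [← c_eq, mul_pow, h6]
        have h10 : ((-1 : ℚ) ^ k) * (-1) ^ k = 1 := by rw [← mul_pow]; norm_num
        calc ((t.factorial : ℕ) : ℚ) ^ l * (c t k ^ (l + 1) * ∏ j ∈ range k, (1 - (p : ℚ) * y j))
            = ((t.factorial : ℕ) : ℚ) ^ l * c t k ^ l * (c t k * ∏ j ∈ range k, (1 - (p : ℚ) * y j)) := by ring
          _ = ((t.factorial : ℕ) : ℚ) ^ l * c t k ^ l * ((((-1 : ℚ) ^ k) * (-1) ^ k) * ∏ i ∈ range k, (1 - Bala.xx (N + 1) i)) := by
              rw [h7, h10, one_mul]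
          _ = _ := by ring
      rw [h5] at e1
      push_cast at e1
      exact (mul_eq_zero.1 e1).resolve_left (pow_ne_zero _ hf0)
    have h6 := second_sum (p := p) h2 hm ht hpar
    rw [hN'] at h6
    have e1 : ∑ k ∈ range (N + 1), (∏ j ∈ range k, ((t : ℚ) + 1 + j - (p : ℚ) / m) / ((j : ℚ) + 1)) ^ m =
        (∑ k ∈ range (N + 1), (∏ j ∈ range k, ((t : ℚ) + 1 + j - (p : ℚ) / m) / ((j : ℚ) + 1)) ^ m -
        ∑ k ∈ range (N + 1), (c t k ^ m * ∏ j ∈ range k, (1 - (p : ℚ) * y j) +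
          (p : ℚ) ^ 2 * (((m.choose 2 : ℚ) * (m : ℚ)⁻¹ ^ 2) * (c t k ^ m * ∑ j ∈ range k, 1 / ((t : ℚ) + 1 + j) ^ 2)))) +
        (p : ℚ) ^ 2 * (((m.choose 2 : ℚ) * (m : ℚ)⁻¹ ^ 2) * ∑ k ∈ range (N + 1), c t k ^ m * ∑ j ∈ range k, 1 / ((t : ℚ) + 1 + j) ^ 2) := by
      rw [sum_add_distrib, hzero, zero_add, ← mul_sum, ← mul_sum]; ring
    rw [e1]
    refine PO.add (sum_sub _ _ _ hterm) ?_
    exact (ppow (p := p) 2).mul (k := 1) (PO.mul0 (PO.mul0 (of_nat _) (him.pow0 2)) h6)
  · -- the tail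
    apply PO.sum
    intro k hk
    have hk' := mem_range.1 hk
    have h5 : PO p 1 (∏ j ∈ range (N + 1 + k), ((t : ℚ) + 1 + j - (p : ℚ) / m) / ((j : ℚ) + 1)) := by
      have hmem : N ∈ range (N + 1 + k) := mem_range.2 (by omega)
      rw [← Finset.mul_prod_erase _ _ hmem]
      refine PO.mul0' ?_ ?_
      · rw [div_eq_mul_inv]
        refine PO.mul0' ?_ (iu N (by omega))
        have e1 : (t : ℚ) + 1 + N - (p : ℚ) / m = (p : ℚ) - (p : ℚ) / m := by rw [hNQ]; ring
        rw [e1]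
        exact p_PO.sub hxm
      · apply prod_int
        intro j hj
        have := mem_range.1 (mem_of_mem_erase hj)
        exact hfac j (by omega)
    exact (h5.pow m).mono (by omega)

/-- **Q1.** For all integers `m > 2`, `r ≥ -m/2` of different parities and every odd prime `p > r`
with `p ∤ m` and `p ≡ r (mod m)`, `S_{m,r}(p) ≡ 0 (mod p^3)` in `ℤ_(p)`. -/
theorem result : ∀ (m : ℕ) (r : ℤ) (p : ℕ), 2 < m → p.Prime → p ≠ 2 → ¬ p ∣ m → r < p →
    ¬ (Even (m : ℤ) ↔ Even r) → (p : ℤ) ≡ r [ZMOD (m : ℤ)] → -(m : ℤ) ≤ 2 * r →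
    ¬ p ∣ (S m r p / (p : ℚ) ^ 3).den := by
  intro m r p hm hpp h2 hpm hr hpar hmod hrm
  have hp : Fact p.Prime := ⟨hpp⟩
  apply not_dvd_den
  -- the integer `t`
  obtain ⟨s, hs⟩ : (m : ℤ) ∣ (p : ℤ) - r := (Int.modEq_iff_dvd.1 hmod.symm)
  have hmz : (0 : ℤ) < m := by omega
  have hs0 : 0 < s := by
    by_contra h
    have : (m : ℤ) * s ≤ 0 := mul_nonpos_of_nonneg_of_nonpos hmz.le (by omega)
    omega
  obtain ⟨t, rfl⟩ : ∃ t : ℕ, s = t + 1 := ⟨(s - 1).toNat, by omega⟩
  have ht : t * m + 2 ≤ p := by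
    have h5 : (m : ℤ) * ((t : ℤ) + 1) = t * m + m := by ring
    rw [h5] at hs
    have : ((t * m + 2 : ℕ) : ℤ) ≤ (p : ℤ) := by push_cast; omega
    exact_mod_cast this
  have hpodd : Odd (p : ℤ) := by
    have := hpp.eq_two_or_odd'
    rcases this with h | h
    · exact absurd h h2
    · exact_mod_cast h
  have hpar' : Even m ∨ Even t := by
    by_contra hcon
    push Not at hcon
    obtain ⟨h3, h4⟩ := hcon
    rw [Nat.not_even_iff_odd] at h3 h4
    apply hpar
    have h5 : Odd (m : ℤ) := by exact_mod_cast h3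
    have h6 : Even ((t : ℤ) + 1) := by
      have : Odd (t : ℤ) := by exact_mod_cast h4
      exact this.add_one
    have h7 : Odd r := by
      have : r = (p : ℤ) - (m : ℤ) * ((t : ℤ) + 1) := by linarith
      rw [this]
      exact hpodd.sub_even (h6.mul_left _)
    constructor
    · intro h; exact absurd h (Int.not_even_iff_odd.2 h5)
    · intro h; exact absurd h (Int.not_even_iff_odd.2 h7)
  have h := main (p := p) h2 (m := m) (t := t) (by omega) hpm ht hpar'
  have e : S m r p = ∑ k ∈ range p, (∏ j ∈ range k, ((t : ℚ) + 1 + j - (p : ℚ) / m) / ((j : ℚ) + 1)) ^ m := by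
    unfold S
    apply sum_congr rfl
    intro k _
    rw [pow_mul, ← mul_pow]
    congr 1
    unfold binom
    have hm0 : (m : ℚ) ≠ 0 := by positivity
    have hrq : (r : ℚ) / m = (p : ℚ) / m - (t + 1) := by
      have : ((r : ℤ) : ℚ) = (p : ℚ) - (m : ℚ) * ((t : ℚ) + 1) := by
        have h9 : r = (p : ℤ) - (m : ℤ) * ((t : ℤ) + 1) := by linarith
        rw [h9]; push_cast; ring
      rw [this]; field_simp
    rw [prod_div_distrib, hrq, ← Finset.prod_range_add_one_eq_factorial]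
    push_cast
    rw [← mul_div_assoc]
    congr 1
    have h8 : (-1 : ℚ) ^ k = ∏ j ∈ range k, (-1 : ℚ) := by simp
    rw [h8, ← prod_mul_distrib]
    apply prod_congr rfl
    intro j _
    ring
  rw [e]
  exact h

end Pool.Agent.Results.MP_9b2749_nt.PowerSums
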